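import Pool.Agent.Q42.EC.Stm

/-! Project EC of helper42: the mixture of Gaussians has a smooth positive density. -/

set_option autoImplicit false

open MeasureTheory ProbabilityTheory InformationTheory
open scoped ENNReal NNReal

namespace Pool.Agent.Q86.EC

open Pool.Agent.Q42.EC

theorem density : St_density := by
  intro I _ p m v hv hp hp1
  refine ⟨?_, ?_, ?_⟩
  · unfold mixPDF
    apply ContDiff.sum
    intro i _
    apply contDiff_const.mul
    unfold gaussianPDFReal
    fun_prop
  · intro x
    unfold mixPDF
    have h1 : ∀ i ∈ Finset.univ, 0 ≤ p i * gaussianPDFReal (m i) v x := fun i _ =>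
      mul_nonneg (hp i) (gaussianPDFReal_nonneg _ _ _)
    apply Finset.sum_pos' h1
    by_contra hcon
    push Not at hcon
    have h0 : ∀ i, p i = 0 := by
      intro i
      by_contra hne
      have hpos : 0 < p i := lt_of_le_of_ne (hp i) (Ne.symm hne)
      have := hcon i (Finset.mem_univ i)
      exact absurd (mul_pos hpos (gaussianPDFReal_pos (m i) v x hv)) (not_lt.mpr this)
    simp [h0] at hp1
  · unfold mixM mixPDF
    have h1 : (fun x => ENNReal.ofReal (∑ i, p i * gaussianPDFReal (m i) v x)) =
        fun x => ∑ i, ENNReal.ofReal (p i) * gaussianPDF (m i) v x := by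
      funext x
      rw [ENNReal.ofReal_sum_of_nonneg (fun i _ => mul_nonneg (hp i) (gaussianPDFReal_nonneg _ _ _))]
      refine Finset.sum_congr rfl (fun i _ => ?_)
      rw [ENNReal.ofReal_mul (hp i)]
      rfl
    rw [h1]
    have h2 : (fun x => ∑ i, ENNReal.ofReal (p i) * gaussianPDF (m i) v x) =
        ∑ i, (ENNReal.ofReal (p i)) • (gaussianPDF (m i) v) := by
      funext x
      simp [Finset.sum_apply, Pi.smul_apply, smul_eq_mul]
    rw [h2]
    ext s hs
    rw [withDensity_apply _ hs, Measure.finsetSum_apply]
    have h3 : ∀ x, (∑ i, (ENNReal.ofReal (p i)) • (gaussianPDF (m i) v)) x =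
        ∑ i, ENNReal.ofReal (p i) * gaussianPDF (m i) v x := by
      intro x
      simp [Finset.sum_apply, Pi.smul_apply, smul_eq_mul]
    simp_rw [h3]
    rw [lintegral_finsetSum' _ (fun i _ => ((measurable_gaussianPDF (m i) v).const_mul _).aemeasurable)]
    refine Finset.sum_congr rfl (fun i _ => ?_)
    rw [lintegral_const_mul _ (measurable_gaussianPDF (m i) v), Measure.smul_apply, smul_eq_mul,
      gaussianReal_of_var_ne_zero _ hv, withDensity_apply _ hs]

end Pool.Agent.Q86.EC
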